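import Pool.Agent.H68.ICG.Res

/-!
Products of finite groups of coprime orders: the poset of conjugacy classes of subgroups and
irredundant generating sets.
-/

open CategoryTheory Limits H68IC

set_option linter.unusedSectionVars false

namespace H68ICG

section Cop

variable {G₁ G₂ : Type} [Group G₁] [Group G₂]

theorem subConj_map {G G' : Type} [Group G] [Group G'] (φ : G →* G') {L L' : Subgroup G}
    (h : SubConj L L') : SubConj (L.map φ) (L'.map φ) := by
  rw [subConj_iff] at h ⊢
  obtain ⟨g, hg⟩ := h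
  refine ⟨φ g, ?_⟩
  rintro _ ⟨x, hx, rfl⟩
  refine ⟨g⁻¹ * x * g, hg x hx, ?_⟩
  rw [map_mul, map_mul, map_inv]

theorem mem_of_coprime [Finite G₁] [Finite G₂] (hc : (Nat.card G₁).Coprime (Nat.card G₂))
    (L : Subgroup (G₁ × G₂)) (a : G₁) (b : G₂) (ha : a ∈ L.map (MonoidHom.fst G₁ G₂))
    (hb : b ∈ L.map (MonoidHom.snd G₁ G₂)) : (a, b) ∈ L := by
  obtain ⟨⟨a', b'⟩, h1, h2⟩ := ha
  obtain ⟨⟨a'', b''⟩, h3, h4⟩ := hb
  have e1 : a' = a := h2
  have e2 : b'' = b := h4
  subst e1
  subst e2
  have key : ∀ (c : G₁) (d : G₂), (c, d) ∈ L → (c, (1 : G₂)) ∈ L ∧ ((1 : G₁), d) ∈ L := by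
    intro c d hcd
    constructor
    · let n := (Nat.chineseRemainder hc 1 0).1
      have hn1 : n ≡ 1 [MOD Nat.card G₁] := (Nat.chineseRemainder hc 1 0).2.1
      have hn2 : n ≡ 0 [MOD Nat.card G₂] := (Nat.chineseRemainder hc 1 0).2.2
      have h5 : (c, d) ^ n = (c, (1 : G₂)) := by
        refine Prod.ext ?_ ?_
        · show c ^ n = c
          rw [← pow_mod_natCard c n, hn1, pow_mod_natCard, pow_one]
        · show d ^ n = 1
          rw [← pow_mod_natCard d n, hn2, pow_mod_natCard, pow_zero]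
      rw [← h5]
      exact L.pow_mem hcd n
    · let n := (Nat.chineseRemainder hc 0 1).1
      have hn1 : n ≡ 0 [MOD Nat.card G₁] := (Nat.chineseRemainder hc 0 1).2.1
      have hn2 : n ≡ 1 [MOD Nat.card G₂] := (Nat.chineseRemainder hc 0 1).2.2
      have h5 : (c, d) ^ n = ((1 : G₁), d) := by
        refine Prod.ext ?_ ?_
        · show c ^ n = 1
          rw [← pow_mod_natCard c n, hn1, pow_mod_natCard, pow_zero]
        · show d ^ n = d
          rw [← pow_mod_natCard d n, hn2, pow_mod_natCard, pow_one]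
      rw [← h5]
      exact L.pow_mem hcd n
  have h5 := L.mul_mem (key _ _ h1).1 (key _ _ h3).2
  have h6 : ((a', (1 : G₂)) * ((1 : G₁), b'') : G₁ × G₂) = (a', b'') := by
    refine Prod.ext ?_ ?_
    · show a' * 1 = a'
      rw [mul_one]
    · show 1 * b'' = b''
      rw [one_mul]
  rw [h6] at h5
  exact h5

variable [Finite G₁] [Finite G₂]

/-- the map to the product of the posets of classes -/
def toProd (a : SubCl (G₁ × G₂)) : SubCl G₁ × SubCl G₂ :=
  Quotient.liftOn a (fun L => (SubCl.mk (L.map (MonoidHom.fst G₁ G₂)),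
    SubCl.mk (L.map (MonoidHom.snd G₁ G₂)))) (by
      intro L L' h
      have h1 : SubConj L L' := SubConj.of_rel h
      have h2 : SubConj L' L := SubConj.of_rel ((conjSetoid _).symm h)
      refine Prod.ext ?_ ?_
      · exact le_antisymm ((SubCl.mk_le_mk _ _).2 (subConj_map _ h1))
          ((SubCl.mk_le_mk _ _).2 (subConj_map _ h2))
      · exact le_antisymm ((SubCl.mk_le_mk _ _).2 (subConj_map _ h1))
          ((SubCl.mk_le_mk _ _).2 (subConj_map _ h2)))

theorem toProd_le (hc : (Nat.card G₁).Coprime (Nat.card G₂)) (a b : SubCl (G₁ × G₂)) :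
    toProd a ≤ toProd b ↔ a ≤ b := by
  induction a using Quotient.inductionOn with
  | h L =>
    induction b using Quotient.inductionOn with
    | h L' =>
      show (SubCl.mk (L.map (MonoidHom.fst G₁ G₂)) ≤ SubCl.mk (L'.map (MonoidHom.fst G₁ G₂)) ∧
        SubCl.mk (L.map (MonoidHom.snd G₁ G₂)) ≤ SubCl.mk (L'.map (MonoidHom.snd G₁ G₂))) ↔
        SubCl.mk L ≤ SubCl.mk L'
      rw [SubCl.mk_le_mk, SubCl.mk_le_mk, SubCl.mk_le_mk]
      constructor
      · rintro ⟨h1, h2⟩
        rw [subConj_iff] at h1 h2 ⊢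
        obtain ⟨g₁, h1⟩ := h1
        obtain ⟨g₂, h2⟩ := h2
        refine ⟨(g₁, g₂), ?_⟩
        rintro ⟨x, y⟩ hxy
        exact mem_of_coprime hc L' (g₁⁻¹ * x * g₁) (g₂⁻¹ * y * g₂) (h1 x ⟨(x, y), hxy, rfl⟩)
          (h2 y ⟨(x, y), hxy, rfl⟩)
      · intro h
        exact ⟨subConj_map _ h, subConj_map _ h⟩

theorem toProd_surjective : Function.Surjective (toProd (G₁ := G₁) (G₂ := G₂)) := by
  rintro ⟨a, b⟩
  induction a using Quotient.inductionOn with
  | h H =>
    induction b using Quotient.inductionOn with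
    | h K =>
      refine ⟨SubCl.mk (H.prod K), ?_⟩
      have h1 : (H.prod K).map (MonoidHom.fst G₁ G₂) = H := by
        ext x
        constructor
        · rintro ⟨y, hy, rfl⟩
          exact hy.1
        · intro hx
          exact ⟨(x, 1), ⟨hx, K.one_mem⟩, rfl⟩
      have h2 : (H.prod K).map (MonoidHom.snd G₁ G₂) = K := by
        ext x
        constructor
        · rintro ⟨y, hy, rfl⟩
          exact hy.2
        · intro hx
          exact ⟨(1, x), ⟨H.one_mem, hx⟩, rfl⟩
      show (SubCl.mk ((H.prod K).map (MonoidHom.fst G₁ G₂)),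
        SubCl.mk ((H.prod K).map (MonoidHom.snd G₁ G₂))) = (SubCl.mk H, SubCl.mk K)
      rw [h1, h2]

/-- the isomorphism with the product of the posets of classes -/
noncomputable def isoProd (hc : (Nat.card G₁).Coprime (Nat.card G₂)) :
    SubCl (G₁ × G₂) ≃o SubCl G₁ × SubCl G₂ :=
  RelIso.ofSurjective (OrderEmbedding.ofMapLEIff toProd (toProd_le hc)) toProd_surjective

theorem goodN_prod_group {a b : ℕ} (hc : (Nat.card G₁).Coprime (Nat.card G₂))
    (h1 : GoodN a (SubCl G₁)) (h2 : GoodN b (SubCl G₂)) :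
    GoodN (a + b + 1) (SubCl (G₁ × G₂)) :=
  (h1.prod h2).of_iso (isoProd hc).symm

end Cop

section Prime

variable {G : Type} [Group G] [Finite G]

theorem goodN_prime (hp : (Nat.card G).Prime) : GoodN 0 (SubCl G) := by
  intro x
  induction x using Quotient.inductionOn with
  | h H =>
    change Res 0 (Set.Iio (SubCl.mk H))
    have hd : ∀ L : Subgroup G, Nat.card L = 1 ∨ Nat.card L = Nat.card G := fun L =>
      (Nat.dvd_prime hp).1 (Subgroup.card_subgroup_dvd_card L)
    rcases hd H with h | h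
    · have e : Set.Iio (SubCl.mk H) = ∅ := by
        rw [Set.eq_empty_iff_forall_notMem]
        intro y
        induction y using Quotient.inductionOn with
        | h L =>
          change ¬ SubCl.mk L < SubCl.mk H
          rw [mk_lt_mk, h]
          rintro ⟨_, h3⟩
          have : 0 < Nat.card L := Nat.card_pos
          omega
      rw [e]
      exact Res.empty 0
    · have e : Set.Iio (SubCl.mk H) = Set.Iic (SubCl.mk ⊥) := by
        ext y
        induction y using Quotient.inductionOn with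
        | h L =>
          change SubCl.mk L < SubCl.mk H ↔ SubCl.mk L ≤ SubCl.mk ⊥
          rw [mk_lt_mk, SubCl.mk_le_mk, h]
          constructor
          · rintro ⟨h3, h4⟩
            have h5 : Nat.card L = 1 := by
              rcases hd L with h6 | h6
              · exact h6
              · omega
            rw [Subgroup.card_eq_one] at h5
            rw [h5]
            exact SubConj.refl _
          · intro h3
            refine ⟨h3.trans (SubConj.bot _), ?_⟩
            have := Nat.le_of_dvd Nat.card_pos h3.card_dvd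
            rw [Subgroup.card_bot] at this
            have h6 := hp.one_lt
            omega
      rw [e]
      exact Res.principal 0 _

end Prime

section Irr

/-- `G` has a subgroup with an irredundant generating set of size `n` -/
def Irr (G : Type) [Group G] (n : ℕ) : Prop := ∃ T : Finset G, T.card = n ∧
  ∀ t ∈ T, t ∉ Subgroup.closure {x : G | x ∈ T ∧ x ≠ t}

theorem Irr.ge {G : Type} [Group G] [Finite G] {n : ℕ} (h : Irr G n) (𝕜 : Type) [Field 𝕜] :
    (n : WithBot ℕ∞) ≤ gldim (Coef 𝕜 G) := by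
  obtain ⟨T, hT, h⟩ := h
  rw [← hT]
  refine gldim_coef_ge 𝕜 T ?_
  intro A hA hcl
  obtain ⟨t, htT, htA⟩ := Finset.exists_of_ssubset hA
  apply h t htT
  have h1 : t ∈ Subgroup.closure (T : Set G) := Subgroup.subset_closure htT
  rw [← hcl] at h1
  refine Subgroup.closure_mono ?_ h1
  intro x hx
  exact ⟨hA.subset hx, fun hxt => htA (hxt ▸ hx)⟩

theorem Irr.prod {G₁ G₂ : Type} [Group G₁] [Group G₂] {a b : ℕ} (h1 : Irr G₁ a) (h2 : Irr G₂ b) :
    Irr (G₁ × G₂) (a + b) := by
  classical
  obtain ⟨T₁, c1, h1⟩ := h1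
  obtain ⟨T₂, c2, h2⟩ := h2
  let i₁ : G₁ ↪ G₁ × G₂ := ⟨fun x => (x, 1), fun x y h => congrArg Prod.fst h⟩
  let i₂ : G₂ ↪ G₁ × G₂ := ⟨fun x => (1, x), fun x y h => congrArg Prod.snd h⟩
  have hdis : Disjoint (T₁.map i₁) (T₂.map i₂) := by
    rw [Finset.disjoint_left]
    intro x hx hy
    obtain ⟨s, hs, rfl⟩ := Finset.mem_map.1 hx
    obtain ⟨t, _, ht⟩ := Finset.mem_map.1 hy
    have : s = 1 := (congrArg Prod.fst ht).symm
    apply h1 s hs
    rw [this]
    exact Subgroup.one_mem _
  refine ⟨T₁.map i₁ ∪ T₂.map i₂, ?_, ?_⟩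
  · rw [Finset.card_union_of_disjoint hdis, Finset.card_map, Finset.card_map, c1, c2]
  · intro t ht hcl
    rcases Finset.mem_union.1 ht with ht | ht
    · obtain ⟨s, hs, rfl⟩ := Finset.mem_map.1 ht
      have hle : Subgroup.closure {x : G₁ × G₂ | x ∈ T₁.map i₁ ∪ T₂.map i₂ ∧ x ≠ i₁ s} ≤
          (Subgroup.closure {x : G₁ | x ∈ T₁ ∧ x ≠ s}).prod ⊤ := by
        rw [Subgroup.closure_le]
        rintro x ⟨hx, hne⟩
        refine ⟨?_, trivial⟩
        rcases Finset.mem_union.1 hx with hx | hx
        · obtain ⟨u, hu, rfl⟩ := Finset.mem_map.1 hx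
          exact Subgroup.subset_closure ⟨hu, fun h => hne (congrArg i₁ h)⟩
        · obtain ⟨u, hu, rfl⟩ := Finset.mem_map.1 hx
          exact Subgroup.one_mem _
      exact h1 s hs (hle hcl).1
    · obtain ⟨s, hs, rfl⟩ := Finset.mem_map.1 ht
      have hle : Subgroup.closure {x : G₁ × G₂ | x ∈ T₁.map i₁ ∪ T₂.map i₂ ∧ x ≠ i₂ s} ≤
          (⊤ : Subgroup G₁).prod (Subgroup.closure {x : G₂ | x ∈ T₂ ∧ x ≠ s}) := by
        rw [Subgroup.closure_le]
        rintro x ⟨hx, hne⟩
        refine ⟨trivial, ?_⟩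
        rcases Finset.mem_union.1 hx with hx | hx
        · obtain ⟨u, hu, rfl⟩ := Finset.mem_map.1 hx
          exact Subgroup.one_mem _
        · obtain ⟨u, hu, rfl⟩ := Finset.mem_map.1 hx
          exact Subgroup.subset_closure ⟨hu, fun h => hne (congrArg i₂ h)⟩
      exact h2 s hs (hle hcl).2

theorem irr_one {G : Type} [Group G] (g : G) (hg : g ≠ 1) : Irr G 1 := by
  refine ⟨{g}, Finset.card_singleton g, ?_⟩
  intro t ht hcl
  rw [Finset.mem_singleton] at ht
  subst ht
  have : {x : G | x ∈ ({t} : Finset G) ∧ x ≠ t} = ∅ := by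
    rw [Set.eq_empty_iff_forall_notMem]
    rintro x ⟨hx, hne⟩
    exact hne (Finset.mem_singleton.1 hx)
  rw [this, Subgroup.closure_empty, Subgroup.mem_bot] at hcl
  exact hg hcl

end Irr

section Aff

variable {K : Type} [Field K] [Finite K] [Algebra (ZMod 2) K] (hK : Nat.card K = 8)

include hK

theorem irr_aff : Irr (Aff K) 3 := by
  let b := Module.finBasisOfFinrankEq (ZMod 2) K (finrank_eq hK)
  let T : Finset (Aff K) := Finset.univ.map ⟨fun i : Fin 3 => (⟨1, b i⟩ : Aff K), fun i j hij =>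
    b.injective (congrArg Aff.b hij)⟩
  have hT : T.card = 3 := by rw [Finset.card_map, Finset.card_univ, Fintype.card_fin]
  refine ⟨T, hT, ?_⟩
  intro t ht hcl
  obtain ⟨i, _, rfl⟩ := Finset.mem_map.1 ht
  have h1 : Subgroup.closure {x : Aff K | x ∈ T ∧ x ≠ (⟨1, b i⟩ : Aff K)} ≤
      vsub (LinearMap.ker (b.coord i)).toAddSubgroup := by
    rw [Subgroup.closure_le]
    rintro y ⟨hy, hne⟩
    obtain ⟨j, _, rfl⟩ := Finset.mem_map.1 hy
    refine ⟨rfl, ?_⟩
    show b.coord i (b j) = 0
    rw [Module.Basis.coord_apply, Module.Basis.repr_self, Finsupp.single_apply, if_neg]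
    rintro rfl
    exact hne rfl
  have h2 := (h1 hcl).2
  have h3 : b.coord i (b i) = 0 := h2
  rw [Module.Basis.coord_apply, Module.Basis.repr_self, Finsupp.single_apply, if_pos rfl] at h3
  exact one_ne_zero h3

end Aff

/-- For every finite set `S` of primes other than `2` and `7` there is a group of order
`56 ∏ S`. -/
theorem exists_group (S : Finset ℕ) (hS : ∀ p ∈ S, p.Prime ∧ p ≠ 2 ∧ p ≠ 7) :
    ∃ (G : Type) (_ : Group G) (_ : Finite G), Nat.card G = 56 * ∏ p ∈ S, p ∧
      GoodN (S.card + 1) (SubCl G) ∧ Irr G (S.card + 3) := by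
  classical
  induction S using Finset.induction with
  | empty =>
    have hK : Nat.card (GaloisField 2 3) = 8 := by
      rw [GaloisField.card 2 3 (by norm_num)]
      norm_num
    exact ⟨Aff (GaloisField 2 3), inferInstance, inferInstance, by
      rw [card_aff hK, Finset.prod_empty, mul_one], goodN_of_good (good_aff hK), irr_aff hK⟩
  | insert r S hr ih =>
    obtain ⟨G, _, _, h1, h2, h3⟩ := ih (fun p hp => hS p (Finset.mem_insert_of_mem hp))
    obtain ⟨hp, hr2, hr7⟩ := hS r (Finset.mem_insert_self _ _)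
    haveI : Fact r.Prime := ⟨hp⟩
    have hc : Nat.card (Multiplicative (ZMod r)) = r := by
      rw [Nat.card_congr Multiplicative.toAdd, Nat.card_zmod]
    have hcop : (Nat.card G).Coprime (Nat.card (Multiplicative (ZMod r))) := by
      rw [h1, hc]
      refine Nat.Coprime.mul_left ?_ ?_
      · rw [Nat.coprime_comm, Nat.Prime.coprime_iff_not_dvd hp]
        intro hd
        have h56 : (56 : ℕ) = 2 ^ 3 * 7 := by norm_num
        rw [h56, hp.dvd_mul] at hd
        rcases hd with hd | hd
        · exact hr2 ((Nat.prime_dvd_prime_iff_eq hp Nat.prime_two).1 (hp.dvd_of_dvd_pow hd))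
        · exact hr7 ((Nat.prime_dvd_prime_iff_eq hp (by norm_num)).1 hd)
      · refine Nat.Coprime.prod_left fun p hpS => ?_
        rw [Nat.coprime_primes (hS p (Finset.mem_insert_of_mem hpS)).1 hp]
        rintro rfl
        exact hr hpS
    haveI : Finite (Multiplicative (ZMod r)) := inferInstance
    refine ⟨G × Multiplicative (ZMod r), inferInstance, inferInstance, ?_, ?_, ?_⟩
    · rw [Nat.card_prod, h1, hc, Finset.prod_insert hr]
      ring
    · have h4 := goodN_prod_group hcop h2 (goodN_prime (by rw [hc]; exact hp))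
      rw [Finset.card_insert_of_notMem hr]
      exact h4
    · have h4 : Irr (Multiplicative (ZMod r)) 1 := by
        refine irr_one (Multiplicative.ofAdd (1 : ZMod r)) ?_
        intro h
        have h5 : (1 : ZMod r) = 0 := h
        exact one_ne_zero h5
      have h5 := h3.prod h4
      rw [Finset.card_insert_of_notMem hr]
      have e : S.card + 1 + 3 = S.card + 3 + 1 := by omega
      rw [e]
      exact h5

end H68ICG
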