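import Pool.Agent.H68.IC.Main

/-!
Mayer-Vietoris resolutions of down-sets of a finite poset by principal ideals, and the upper bound
for the global dimension of the incidence algebra which they give.
-/

open CategoryTheory Limits H68IC

set_option linter.unusedSectionVars false

namespace H68ICG

/-- `Res d D`: the down-set `D` is built in at most `d` steps from principal ideals -/
inductive Res {P : Type} [PartialOrder P] : ℕ → Set P → Prop
  | empty (d : ℕ) : Res d ∅
  | principal (d : ℕ) (x : P) : Res d (Set.Iic x)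
  | union (d : ℕ) (D₁ D₂ : Set P) (h1 : Res (d + 1) D₁) (h2 : Res (d + 1) D₂)
      (h3 : Res d (D₁ ∩ D₂)) : Res (d + 1) (D₁ ∪ D₂)

theorem Res.lower {P : Type} [PartialOrder P] {d : ℕ} {D : Set P} (h : Res d D) :
    IsLowerSet D := by
  induction h with
  | empty d => exact isLowerSet_empty
  | principal d x => exact isLowerSet_Iic x
  | union d D₁ D₂ _ _ _ h1 h2 _ => exact h1.union h2

/-- every down-set `{y | y < x}` is built in at most `d` steps -/
def GoodN (d : ℕ) (P : Type) [PartialOrder P] : Prop := ∀ x : P, Res d (Set.Iio x)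

theorem goodN_of_good {P : Type} [PartialOrder P] (h : Good P) : GoodN 1 P := by
  intro x
  rcases h x with h | ⟨x', h⟩ | ⟨v, c, b, h, h'⟩
  · rw [h]; exact Res.empty 1
  · rw [h]; exact Res.principal 1 x'
  · rw [h]
    refine Res.union 0 _ _ (Res.principal 1 v) (Res.principal 1 c) ?_
    rw [h']
    exact Res.principal 0 b

section Prod

variable {P Q : Type} [PartialOrder P] [PartialOrder Q]

theorem Res.prod_principal {b : ℕ} {E : Set Q} (hE : Res b E) : ∀ (a : ℕ) (x : P),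
    Res (a + b) (Set.Iic x ×ˢ E) := by
  induction hE with
  | empty b => intro a x; rw [Set.prod_empty]; exact Res.empty _
  | principal b y => intro a x; rw [Set.Iic_prod_Iic]; exact Res.principal _ _
  | union b E₁ E₂ _ _ _ h1 h2 h3 =>
    intro a x
    rw [Set.prod_union, ← Nat.add_assoc]
    refine Res.union _ _ _ (h1 a x) (h2 a x) ?_
    rw [← Set.prod_inter]
    exact h3 a x

theorem Res.prod {a : ℕ} {D : Set P} (hD : Res a D) : ∀ {b : ℕ} {E : Set Q}, Res b E →
    Res (a + b) (D ×ˢ E) := by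
  induction hD with
  | empty a => intro b E _; rw [Set.empty_prod]; exact Res.empty _
  | principal a x => intro b E hE; exact hE.prod_principal a x
  | union a D₁ D₂ _ _ _ h1 h2 h3 =>
    intro b E hE
    have e : a + 1 + b = a + b + 1 := by omega
    have k1 := h1 hE
    have k2 := h2 hE
    rw [e] at k1 k2 ⊢
    rw [Set.union_prod]
    refine Res.union _ _ _ k1 k2 ?_
    rw [← Set.inter_prod]
    exact h3 hE

theorem Res.mono {d : ℕ} {D : Set P} (h : Res d D) : ∀ k : ℕ, Res (k + d) D := by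
  induction h with
  | empty d => intro k; exact Res.empty _
  | principal d x => intro k; exact Res.principal _ x
  | union d D₁ D₂ _ _ _ h1 h2 h3 =>
    intro k
    rw [← Nat.add_assoc]
    exact Res.union _ _ _ (h1 k) (h2 k) (h3 k)

theorem GoodN.prod {a b : ℕ} (hP : GoodN a P) (hQ : GoodN b Q) : GoodN (a + b + 1) (P × Q) := by
  rintro ⟨x, y⟩
  have e : Set.Iio (x, y) = (Set.Iio x ×ˢ Set.Iic y) ∪ (Set.Iic x ×ˢ Set.Iio y) := by
    ext ⟨p, q⟩
    show (p, q) < (x, y) ↔ (p < x ∧ q ≤ y) ∨ (p ≤ x ∧ q < y)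
    rw [Prod.lt_iff]
  rw [e]
  have h1 : Res (a + (b + 1)) (Set.Iio x ×ˢ Set.Iic y) := (hP x).prod (Res.principal (b + 1) y)
  have h2 : Res (b + (a + 1)) (Set.Iic x ×ˢ Set.Iio y) := by
    have := (Res.principal (a + 1) x).prod (hQ y)
    rw [Nat.add_comm] at this
    exact this
  have e2 : b + (a + 1) = a + b + 1 := by omega
  rw [e2] at h2
  refine Res.union _ _ _ h1 h2 ?_
  have e3 : (Set.Iio x ×ˢ Set.Iic y) ∩ (Set.Iic x ×ˢ Set.Iio y) = Set.Iio x ×ˢ Set.Iio y := by
    ext ⟨p, q⟩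
    constructor
    · rintro ⟨h1, h2⟩
      exact ⟨h1.1, h2.2⟩
    · rintro ⟨h1, h2⟩
      exact ⟨⟨h1, le_of_lt h2⟩, ⟨le_of_lt h1, h2⟩⟩
  rw [e3]
  exact (hP x).prod (hQ y)

theorem Res.image (e : P ≃o Q) {d : ℕ} {D : Set P} (h : Res d D) : Res d (e '' D) := by
  induction h with
  | empty d => rw [Set.image_empty]; exact Res.empty _
  | principal d x => rw [OrderIso.image_Iic]; exact Res.principal _ _
  | union d D₁ D₂ _ _ _ h1 h2 h3 =>
    rw [Set.image_union]
    refine Res.union _ _ _ h1 h2 ?_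
    rw [← Set.image_inter e.injective]
    exact h3

theorem GoodN.of_iso {d : ℕ} (e : P ≃o Q) (h : GoodN d P) : GoodN d Q := by
  intro y
  have h1 := (h (e.symm y)).image e
  rw [OrderIso.image_Iio, OrderIso.apply_symm_apply] at h1
  exact h1

end Prod

section PD

variable {𝕜 : Type} [Field 𝕜]
variable {P : Type} [PartialOrder P] [LocallyFiniteOrder P] [DecidableEq P] [Fintype P]
variable (N : Type) [AddCommGroup N] [Module (IA 𝕜 P) N] [Module 𝕜 N] [IsScalarTower 𝕜 (IA 𝕜 P) N]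

theorem pd_prod {R : Type} [Ring R] {X Y : Type} [AddCommGroup X] [Module R X] [AddCommGroup Y]
    [Module R Y] (n : ℕ) (h1 : HasProjectiveDimensionLT (ModuleCat.of R X) n)
    (h2 : HasProjectiveDimensionLT (ModuleCat.of R Y) n) :
    HasProjectiveDimensionLT (ModuleCat.of R (X × Y)) n := by
  refine pd_mid (LinearMap.inl R X Y) (LinearMap.snd R X Y) LinearMap.inl_injective
    LinearMap.snd_surjective ?_ n h1 h2
  rintro ⟨x, y⟩
  constructor
  · intro h
    have h' : y = 0 := h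
    exact ⟨x, by rw [h']; rfl⟩
  · rintro ⟨x', hx'⟩
    rw [← hx']
    rfl

open Classical in
theorem pd_union' (n : ℕ) (D D₁ D₂ D₃ : Set P) (hD : IsLowerSet D) (h1 : IsLowerSet D₁)
    (h2 : IsLowerSet D₂) (h3 : IsLowerSet D₃) (hu : D = D₁ ∪ D₂) (hi : D₁ ∩ D₂ = D₃)
    (p1 : HasProjectiveDimensionLT (ModuleCat.of (IA 𝕜 P) (FD 𝕜 N D₁ h1)) (n + 1))
    (p2 : HasProjectiveDimensionLT (ModuleCat.of (IA 𝕜 P) (FD 𝕜 N D₂ h2)) (n + 1))
    (p3 : HasProjectiveDimensionLT (ModuleCat.of (IA 𝕜 P) (FD 𝕜 N D₃ h3)) n) :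
    HasProjectiveDimensionLT (ModuleCat.of (IA 𝕜 P) (FD 𝕜 N D hD)) (n + 1) := by
  have l1 : FD 𝕜 N D₁ h1 ≤ FD 𝕜 N D hD := fun f hf y hy => hf y (fun h => hy (hu ▸ Or.inl h))
  have l2 : FD 𝕜 N D₂ h2 ≤ FD 𝕜 N D hD := fun f hf y hy => hf y (fun h => hy (hu ▸ Or.inr h))
  have l31 : FD 𝕜 N D₃ h3 ≤ FD 𝕜 N D₁ h1 := fun f hf y hy => hf y (fun h => hy (by
    rw [← hi] at h; exact h.1))
  have l32 : FD 𝕜 N D₃ h3 ≤ FD 𝕜 N D₂ h2 := fun f hf y hy => hf y (fun h => hy (by
    rw [← hi] at h; exact h.2))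
  let i : FD 𝕜 N D₃ h3 →ₗ[IA 𝕜 P] (FD 𝕜 N D₁ h1) × (FD 𝕜 N D₂ h2) :=
    LinearMap.prod (Submodule.inclusion l31) (-(Submodule.inclusion l32))
  let p : (FD 𝕜 N D₁ h1) × (FD 𝕜 N D₂ h2) →ₗ[IA 𝕜 P] FD 𝕜 N D hD :=
    LinearMap.coprod (Submodule.inclusion l1) (Submodule.inclusion l2)
  refine pd_right i p ?_ ?_ ?_ n p3 (pd_prod (n + 1) p1 p2)
  · intro f g hfg
    exact Submodule.inclusion_injective l31 (congrArg Prod.fst hfg)
  · intro f
    refine ⟨(⟨fun y => if y ∈ D₁ then f.1 y else 0, fun y hy => if_neg hy⟩,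
      ⟨fun y => if y ∈ D₁ then 0 else f.1 y, fun y hy => ?_⟩), ?_⟩
    · show (if y ∈ D₁ then (0 : N) else f.1 y) = 0
      split_ifs with h
      · rfl
      · exact f.2 y (by rw [hu]; rintro (h' | h'); exacts [h h', hy h'])
    · apply Subtype.ext
      funext y
      show (if y ∈ D₁ then f.1 y else 0) + (if y ∈ D₁ then (0 : N) else f.1 y) = f.1 y
      split_ifs
      · rw [add_zero]
      · rw [zero_add]
  · rintro ⟨f, g⟩
    constructor
    · intro h
      have h' : ∀ y, f.1 y + g.1 y = 0 := fun y => congrFun (congrArg Subtype.val h) y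
      refine ⟨⟨f.1, fun y hy => ?_⟩, ?_⟩
      · by_cases hy1 : y ∈ D₁
        · have hy2 : y ∉ D₂ := fun hy2 => hy (by rw [← hi]; exact ⟨hy1, hy2⟩)
          have := h' y
          rw [g.2 y hy2, add_zero] at this
          exact this
        · exact f.2 y hy1
      · refine Prod.ext rfl (Subtype.ext (funext fun y => ?_))
        show -(f.1 y) = g.1 y
        rw [neg_eq_iff_add_eq_zero]
        exact h' y
    · rintro ⟨k, hk⟩
      rw [← hk]
      apply Subtype.ext
      funext y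
      show k.1 y + -(k.1 y) = 0
      rw [add_neg_cancel]

theorem pd_res {d : ℕ} {D : Set P} (h : Res d D) : ∀ hD : IsLowerSet D,
    HasProjectiveDimensionLT (ModuleCat.of (IA 𝕜 P) (FD 𝕜 N D hD)) (d + 1) := by
  induction h with
  | empty d =>
    intro hD
    have : Subsingleton (FD 𝕜 N ∅ hD) := by
      refine ⟨fun f g => Subtype.ext (funext fun y => ?_)⟩
      rw [f.2 y (Set.notMem_empty y), g.2 y (Set.notMem_empty y)]
    exact pd_sub _
  | principal d x =>
    intro hD
    have := fd_Iic_projective (𝕜 := 𝕜) (P := P) (W := N) x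
    have := pd_proj (R := IA 𝕜 P) (X := FD 𝕜 N (Set.Iic x) hD)
    exact hasProjectiveDimensionLT_of_ge _ 1 _ (by omega)
  | union d D₁ D₂ k1 k2 k3 h1 h2 h3 =>
    intro hD
    exact pd_union' N (d + 1) (D₁ ∪ D₂) D₁ D₂ (D₁ ∩ D₂) hD k1.lower k2.lower k3.lower rfl rfl
      (h1 k1.lower) (h2 k2.lower) (h3 k3.lower)

theorem pd_conc' (n : ℕ) (x : P) (hN : ∀ n : N, E 𝕜 x x • n = n)
    (hx : HasProjectiveDimensionLT
      (ModuleCat.of (IA 𝕜 P) (FD 𝕜 N (Set.Iio x) (isLowerSet_Iio x))) n) :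
    HasProjectiveDimensionLT (ModuleCat.of (IA 𝕜 P) N) (n + 1) := by
  have hle : FD 𝕜 N (Set.Iio x) (isLowerSet_Iio x) ≤ FD 𝕜 N (Set.Iic x) (isLowerSet_Iic x) :=
    fun f hf y hy => hf y (fun h => hy (le_of_lt h))
  let p : FD 𝕜 N (Set.Iic x) (isLowerSet_Iic x) →ₗ[IA 𝕜 P] N :=
    { toFun := fun f => f.1 x
      map_add' := fun f g => rfl
      map_smul' := by
        intro a f
        show ∑ z, a x z • f.1 z = a • f.1 x
        rw [conc_smul N x hN, Finset.sum_eq_single x]
        · intro z _ hz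
          by_cases h : x ≤ z
          · rw [fd_apply_zero N f (show z ∉ Set.Iic x from fun h' => hz (le_antisymm h' h)),
              smul_zero]
          · rw [IncidenceAlgebra.apply_eq_zero_of_not_le h, zero_smul]
        · intro h
          exact absurd (Finset.mem_univ _) h }
  have := fd_Iic_projective (𝕜 := 𝕜) (P := P) (W := N) x
  refine pd_right (Submodule.inclusion hle) p (Submodule.inclusion_injective hle) ?_ ?_ n hx ?_
  · intro n
    exact ⟨dl 𝕜 (isLowerSet_Iic x) x le_rfl n, if_pos rfl⟩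
  · intro f
    constructor
    · intro hf
      have hf' : f.1 x = 0 := hf
      refine ⟨⟨f.1, fun y hy => ?_⟩, rfl⟩
      by_cases h : y = x
      · rw [h]; exact hf'
      · exact f.2 y (fun h' => hy (lt_of_le_of_ne h' h))
    · rintro ⟨g, rfl⟩
      exact g.2 x (lt_irrefl x)
  · have := pd_proj (R := IA 𝕜 P) (X := FD 𝕜 N (Set.Iic x) (isLowerSet_Iic x))
    exact hasProjectiveDimensionLT_of_ge _ 1 _ (by omega)

end PD

section Filt

variable {𝕜 : Type} [Field 𝕜]
variable {P : Type} [PartialOrder P] [LocallyFiniteOrder P] [DecidableEq P] [Fintype P]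
variable (M : Type) [AddCommGroup M] [Module (IA 𝕜 P) M]

theorem pd_MD' {d : ℕ} (hP : GoodN d P) (n : ℕ) : ∀ (D : Finset P)
    (hD : IsLowerSet (D : Set P)), D.card = n →
    HasProjectiveDimensionLT (ModuleCat.of (IA 𝕜 P) (MD 𝕜 M D hD)) (d + 2) := by
  induction n with
  | zero =>
    intro D hD hc
    rw [Finset.card_eq_zero] at hc
    subst hc
    have : Subsingleton (MD 𝕜 M ∅ hD) := by
      refine ⟨fun a b => Subtype.ext ?_⟩
      have key : ∀ m : MD 𝕜 M ∅ hD, m.1 = 0 := by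
        intro m
        rw [← one_smul (IA 𝕜 P) m.1, one_eq_sum, Finset.sum_smul]
        exact Finset.sum_eq_zero fun y _ => m.2 y (Finset.notMem_empty y)
      rw [key a, key b]
    exact pd_sub _
  | succ n ih =>
    intro D hD hc
    have hne : D.Nonempty := Finset.card_pos.1 (by omega)
    obtain ⟨x, hx⟩ := D.exists_maximal hne
    have hxD : x ∈ D := hx.prop
    have hD' : IsLowerSet ((D.erase x : Finset P) : Set P) := by
      intro a b hab ha
      rw [Finset.mem_coe, Finset.mem_erase] at ha ⊢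
      refine ⟨?_, hD hab ha.2⟩
      rintro rfl
      exact ha.1 (le_antisymm (hx.le_of_ge ha.2 hab) hab)
    have h1 := ih (D.erase x) hD' (by rw [Finset.card_erase_of_mem hxD, hc]; rfl)
    have hle : MD 𝕜 M (D.erase x) hD' ≤ MD 𝕜 M D hD := fun m hm y hy =>
      hm y (fun h => hy (Finset.mem_of_mem_erase h))
    let i := Submodule.inclusion hle
    refine pd_mid i (LinearMap.range i).mkQ (Submodule.inclusion_injective hle)
      (Submodule.mkQ_surjective _) (fun y => by
        rw [Submodule.mkQ_apply, Submodule.Quotient.mk_eq_zero]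
        exact Iff.rfl) _ h1 ?_
    let N := MD 𝕜 M D hD ⧸ LinearMap.range i
    letI : Module 𝕜 N := Module.compHom N (algebraMap 𝕜 (IA 𝕜 P))
    haveI : IsScalarTower 𝕜 (IA 𝕜 P) N := ⟨fun c a n => by
      show (c • a) • n = (algebraMap 𝕜 (IA 𝕜 P) c) • (a • n)
      rw [← mul_smul, Algebra.smul_def]⟩
    refine pd_conc' N (d + 1) x ?_ (pd_res N (hP x) _)
    intro n
    obtain ⟨m, rfl⟩ := Submodule.mkQ_surjective _ n
    rw [← map_smul, ← sub_eq_zero, ← map_sub, Submodule.mkQ_apply, Submodule.Quotient.mk_eq_zero]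
    refine ⟨⟨E 𝕜 x x • m.1 - m.1, fun y hy => ?_⟩, rfl⟩
    rw [smul_sub, ← mul_smul]
    by_cases hyx : y = x
    · rw [hyx, E_mul_E_self, sub_self]
    · rw [E_mul_E_ne x y hyx, zero_smul, m.2 y (fun h => hy (Finset.mem_erase.2 ⟨hyx, h⟩)),
        sub_zero]

theorem pd_all' {d : ℕ} (hP : GoodN d P) (M : ModuleCat.{0} (IA 𝕜 P)) :
    HasProjectiveDimensionLT M (d + 2) := by
  have hU : IsLowerSet ((Finset.univ : Finset P) : Set P) := by
    rw [Finset.coe_univ]; exact isLowerSet_univ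
  have h1 := pd_MD' (𝕜 := 𝕜) M hP _ Finset.univ hU rfl
  have hT : MD 𝕜 M Finset.univ hU = ⊤ := by
    rw [eq_top_iff]
    intro m _ y hy
    exact absurd (Finset.mem_univ y) hy
  let e : ModuleCat.of (IA 𝕜 P) (MD 𝕜 M Finset.univ hU) ≅ M :=
    (LinearEquiv.ofTop _ hT).toModuleIso
  exact hasProjectiveDimensionLT_of_iso e _

theorem gldim_ia_le' {d : ℕ} (hP : GoodN d P) :
    gldim (ModuleCat.{0} (IA 𝕜 P)) ≤ ((d + 1 : ℕ) : WithBot ℕ∞) := by
  refine iSup_le fun M => ?_
  exact (projectiveDimension_le_iff M (d + 1)).2 (pd_all' hP M)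

end Filt

end H68ICG
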